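import Mathlib
import Pool.Agent.Lib_helper98.Buch.Defs
import Pool.Agent.Lib_helper98.Buch.Tor
import Pool.Agent.Lib_helper98.Buch.Pair

set_option autoImplicit false

namespace Pool.Agent.Results.MP_1dea36_gt.PolytopePair

open Pool.Agent.Lib_helper98.Buch

universe u

/-- There are two simple `4`-polytopes `P` and `Q` with `8` facets whose complexes have the same
bigraded Betti numbers over every field, while `s(K_Q) < s(K_P)` and `s_ℝ(K_Q) < s_ℝ(K_P)`. -/
theorem result :
    ∃ P Q : SimplePolytope 4 8,
      (∀ (k : Type u) [Field k] (i j : ℕ), betti k P.complex i j = betti k Q.complex i j) ∧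
      buchstaber Q.complex < buchstaber P.complex ∧
      realBuchstaber Q.complex < realBuchstaber P.complex :=
  pair

end Pool.Agent.Results.MP_1dea36_gt.PolytopePair
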