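import Mathlib
import Pool.Agent.Lib_helper42.Kz.Final

/-! Simple polytopes with isomorphic bigraded Tor algebras and different Buchstaber invariants. -/

set_option autoImplicit false

namespace Pool.Agent.Results.MP_1dea36_gt.TorIsoBuchstaber

open Pool.Agent.Lib_helper42.Kz

universe u

/-- There are two simple 4-polytopes `P`, `Q` with 8 facets such that over every field the
bigraded Tor algebras of `K_P` and `K_Q` are isomorphic, in particular all bigraded Betti
numbers agree, while `s(K_P) = s_ℝ(K_P) = 3` and `s(K_Q) = s_ℝ(K_Q) = 4`. -/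
theorem result : ∃ P Q : SimplePolytope 4 8,
    (∀ (k : Type u) [Field k],
      (∃ φ : TorAlg k P.K ≃ₐ[k] TorAlg k Q.K,
        ∀ i j x, x ∈ torComp k P.K i j ↔ φ x ∈ torComp k Q.K i j) ∧
      ∀ i j, bettiNumber k P.K i j = bettiNumber k Q.K i j) ∧
    buchstaber P.K = 3 ∧ buchstaber Q.K = 4 ∧ realBuchstaber P.K = 3 ∧ realBuchstaber Q.K = 4 :=
  main

end Pool.Agent.Results.MP_1dea36_gt.TorIsoBuchstaber
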